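import Pool.Agent.N718.LB.Stm
import Pool.Agent.N364.DC.AMT

set_option autoImplicit false
set_option linter.all false

/-! Project LB, part LAMT: prime values of linear forms at a small common point. -/

namespace Pool.Agent.N134.LB

open Finset Filter Topology Pool.Agent.N718.DC Pool.Agent.N718.LB Pool.Agent.N364.DC

/-- the degrees -/
abbrev e0 : Fin 3 → ℕ := fun _ => 0

/-- the linear forms as binary forms of degree one -/
def fam (v w : Fin 3 → ℤ) : (i : Fin 3) → Fin (e0 i + 2) → ℤ := fun i => ![v i, w i]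

theorem fam0 (v w : Fin 3 → ℤ) (i : Fin 3) : fam v w i 0 = v i := rfl

theorem fam1 (v w : Fin 3 → ℤ) (i : Fin 3) : fam v w i 1 = w i := rfl

theorem fam_all (v w : Fin 3 → ℤ) (i : Fin 3) (p : ℤ → ℤ → Prop) (γ δ : Fin 3 → ℤ)
    (h0 : p (v i) (γ i)) (h1 : p (w i) (δ i)) : ∀ j, p (fam v w i j) (fam γ δ i j) := by
  intro j
  have hj : j = 0 ∨ j = 1 := by
    have h := j.2
    have : (j : ℕ) = 0 ∨ (j : ℕ) = 1 := by
      have : (j : ℕ) < 2 := h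
      omega
    rcases this with h | h
    · left
      exact Fin.ext h
    · right
      apply Fin.ext
      rw [h]
      rfl
  rcases hj with h | h
  · rw [h]; exact h0
  · rw [h]; exact h1

theorem fm_lin {R : Type} [CommRing R] (c : Fin (0 + 2) → R) (x y : R) :
    fm c x y = c 0 * x + c 1 * y := by
  unfold fm
  rw [Fin.sum_univ_two]
  simp

theorem fm_fam (v w : Fin 3 → ℤ) (i : Fin 3) (x y : ℤ) :
    fm (fam v w i) x y = v i * x + w i * y := fm_lin _ _ _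

variable {W M g₀ q' : ℕ} {y₀ : ℤ} {T : ℕ} {s : ℤ} {γ δ : Fin 3 → ℤ} {H κ₁ : ℕ} {a₀ a₁ : ℤ}
  {α β : ℝ}

open Classical in
theorem mem_exc (P : Par e0 W M g₀ q' y₀ T (fun _ => s) (fun _ => 1) (fam γ δ) H κ₁ a₀ a₁ α β)
    {v w : Fin 3 → ℤ} (hv : ∀ i, |v i| ≤ H) (hw : ∀ i, |w i| ≤ H)
    (hc : ∀ i, (M : ℤ) ∣ v i - γ i ∧ (M : ℤ) ∣ w i - δ i)
    (hp : ∀ i, ∀ z : ℝ, α < z → z < β → 0 < (s : ℝ) * (v i + w i * z))
    (hno : ¬ ∃ x y : ℤ, |(x : ℝ)| ≤ Real.log H ^ κ₁ ∧ |(y : ℝ)| ≤ Real.log H ^ κ₁ ∧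
        ∃ P : Fin 3 → ℕ, ∀ i, (P i).Prime ∧ s * (x * v i + y * w i) = P i) :
    bb M (fam γ δ) (fam v w) ∈
      Exc (dat e0 M g₀ q' y₀ T (fun _ => s) (fun _ => 1) (fam γ δ) (fam γ δ) H) (fun _ _ => 1) := by
  have h1 : ∀ i j, (M : ℤ) ∣ fam v w i j - fam γ δ i j := fun i =>
    fam_all v w i (fun a b => (M : ℤ) ∣ a - b) γ δ (hc i).1 (hc i).2
  have h1' : ∀ i j, (M : ℤ) ∣ fam γ δ i j - fam γ δ i j := fun i j => by simp
  have hBX : fam v w ∈ BX e0 H := by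
    unfold BX
    rw [Fintype.mem_piFinset]
    intro i
    rw [Fintype.mem_piFinset]
    exact fam_all v w i (fun a _ => a ∈ Icc (-(H : ℤ)) H) γ δ
      (mem_Icc.2 (abs_le.1 (hv i))) (mem_Icc.2 (abs_le.1 (hw i)))
  unfold Exc
  rw [mem_filter]
  refine ⟨bb_mem_box P.hM hBX h1, ?_⟩
  have hq0 : 0 < g₀ * q' :=
    Nat.mul_pos (Nat.pos_of_dvd_of_pos P.hg₀ P.hM) P.hq'.pos
  have hq0' : (0 : ℝ) < ((g₀ * q' : ℕ) : ℝ) := by exact_mod_cast hq0
  set D := dat e0 M g₀ q' y₀ T (fun _ => s) (fun _ => 1) (fam γ δ) (fam γ δ) H with hD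
  have hval : ∀ i t, D.val i t (bb M (fam γ δ) (fam v w) i) =
      s * (((g₀ * q' : ℕ) : ℤ) * v i + (y₀ + M * t) * w i) := by
    intro i t
    have hb := bb_eq P.hM h1 i
    have h2 := gval P h1' i t (bb M (fam γ δ) (fam v w) i) (fam v w i) hb.1 hb.2 (by
      intro j hj
      have := j.2
      have h3 : (j : ℕ) < 2 := this
      omega)
    rw [← hD, fm_fam] at h2
    have h3 : (((fun _ => 1 : Fin 3 → ℕ) i : ℕ) : ℤ) = 1 := rfl
    rw [h3, one_mul] at h2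
    rw [h2]
    ring
  have hts : ∀ t ∈ D.ts, t < T := by
    intro t ht
    unfold Data.ts at ht
    exact mem_range.1 (mem_filter.1 ht).1
  have hpos : ∀ i, ∀ t ∈ D.ts, 0 < D.val i t (bb M (fam γ δ) (fam v w) i) := by
    intro i t ht
    have hab := P.hab t (hts t ht)
    have h4 := hp i (((y₀ + M * t : ℤ) : ℝ) / ((g₀ * q' : ℕ) : ℝ))
      (by rw [lt_div_iff₀ hq0']; exact hab.1) (by rw [div_lt_iff₀ hq0']; exact hab.2)
    have h5 : (((s * (((g₀ * q' : ℕ) : ℤ) * v i + (y₀ + M * t) * w i) : ℤ)) : ℝ) =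
        ((g₀ * q' : ℕ) : ℝ) * ((s : ℝ) * (v i + w i *
          (((y₀ + M * t : ℤ) : ℝ) / ((g₀ * q' : ℕ) : ℝ)))) := by
      have h6 : (w i : ℝ) * ((y₀ + M * t : ℤ) : ℝ) = ((g₀ * q' : ℕ) : ℝ) * (w i *
          (((y₀ + M * t : ℤ) : ℝ) / ((g₀ * q' : ℕ) : ℝ))) := by
        field_simp
      have h7 : (((s * (((g₀ * q' : ℕ) : ℤ) * v i + (y₀ + M * t) * w i) : ℤ)) : ℝ) =
          (s : ℝ) * (((g₀ * q' : ℕ) : ℝ) * v i + (w i : ℝ) * ((y₀ + M * t : ℤ) : ℝ)) := by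
        push_cast
        ring
      rw [h7, h6]
      ring
    have h6 : (0 : ℝ) < (((s * (((g₀ * q' : ℕ) : ℤ) * v i + (y₀ + M * t) * w i) : ℤ)) : ℝ) := by
      rw [h5]
      exact mul_pos hq0' h4
    rw [hval i t]
    exact_mod_cast h6
  refine ⟨hpos, ?_⟩
  rintro ⟨t, ht, hp1, -⟩
  apply hno
  refine ⟨((g₀ * q' : ℕ) : ℤ), y₀ + M * t, ?_, P.hy t (hts t ht),
    fun i => (D.val i t (bb M (fam γ δ) (fam v w) i)).natAbs, fun i => ⟨hp1 i, ?_⟩⟩
  · rw [Int.cast_natCast, abs_of_nonneg hq0'.le]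
    exact P.hq
  · rw [Int.natAbs_of_nonneg (hpos i t ht).le, hval i t]

theorem lamt_ (h1 : Pool.Agent.N718.DC.S_FIX) (h2 : Pool.Agent.N718.LB.S_PTSK) :
    Pool.Agent.N718.LB.S_LAMT := by
  obtain ⟨C₁, hC₁, h1⟩ := h1 3
  obtain ⟨κ₁, hpts⟩ := h2 (2 * 3 + 3)
  refine ⟨κ₁, 2 * C₁, by positivity, ?_⟩
  intro W M hW hM h2M hMW _ a₀ a₁ α β hab γ δ s hs hn
  obtain ⟨H₁, hpts⟩ := hpts M a₀ a₁ α β hM hab
  obtain ⟨κ, hκ⟩ : ∃ κ : ℕ, κ = 1 + κ₁ * (0 + 1) := ⟨_, rfl⟩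
  obtain ⟨H₂, hfix⟩ := h1 κ W
  have hev := (ev_lim 3 6 M W hW).and ((ev_par e0 (fam γ δ) 0 M).and
    ((eventually_ge_atTop H₁).and (eventually_ge_atTop H₂)))
  obtain ⟨H₀, hH₀⟩ := eventually_atTop.1 hev
  refine ⟨H₀, fun H hH => ?_⟩
  obtain ⟨⟨hl1, hl2⟩, ⟨⟨l1, lM, lE⟩, lγ, lH⟩, hH1, hH2⟩ := hH₀ H hH
  obtain ⟨g₀, q', y₀, T, hg₀, hq', hqM, hx, hy₀, hab', hT, hqT, hq, hT', hy⟩ := hpts H hH1
  have P : Par e0 W M g₀ q' y₀ T (fun _ => s) (fun _ => 1) (fam γ δ) H κ₁ a₀ a₁ α β :=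
    { hW := hW
      hM := hM
      h2 := h2M
      hMW := hMW
      hs := fun _ => hs
      hg := fun _ => ⟨one_dvd _, fun p _ hpM => by rw [Nat.div_one]; exact hpM⟩
      hn := fun i => ⟨γ i * a₀ + δ i * a₁, by rw [fm_fam]; simp, hn i⟩
      hg₀ := hg₀
      hq' := hq'
      hqM := hqM
      hx := hx
      hy₀ := hy₀
      hab := hab'
      hT := hT
      hqT := hqT
      hq := hq
      hT' := hT'
      hy := hy
      l1 := l1
      lM := lM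
      lE := fun i => by
        have : ((0 : ℕ) : ℝ) + 2 ≤ Real.log H := lE
        exact this
      lγ := lγ
      lH := lH }
  classical
  have hOk := dat_ok P 0 κ (fun _ => le_rfl) hκ (ρ := fam γ δ) (fun i j => by simp)
    (fun i j => lγ i j) (fun i hi => absurd hi (by show ¬ 1 ≤ 0; omega))
  have hF := hfix H hH2 _ hOk (fun _ _ => 1) (fun _ _ => Or.inl rfl)
  have hvol := (vol_le P (fam γ δ)).2
  set D := dat e0 M g₀ q' y₀ T (fun _ => s) (fun _ => 1) (fam γ δ) (fam γ δ) H with hD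
  set S := ((V3 H ×ˢ V3 H).filter (fun v =>
      (∀ i, (M : ℤ) ∣ v.1 i - γ i ∧ (M : ℤ) ∣ v.2 i - δ i) ∧
      (∀ i, ∀ z : ℝ, α < z → z < β → 0 < (s : ℝ) * (v.1 i + v.2 i * z)) ∧
      ¬ ∃ x y : ℤ, |(x : ℝ)| ≤ Real.log H ^ κ₁ ∧ |(y : ℝ)| ≤ Real.log H ^ κ₁ ∧
        ∃ P : Fin 3 → ℕ, ∀ i, (P i).Prime ∧ s * (x * v.1 i + y * v.2 i) = P i)) with hS
  have hgoal : (S.card : ℝ) ≤ 2 * C₁ / W * (((2 * H + 1 : ℕ) : ℝ) / M) ^ 6 := by
    have hcard : S.card ≤ (Exc D (fun _ _ => 1)).card := by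
      apply card_le_card_of_injOn (fun v => bb M (fam γ δ) (fam v.1 v.2))
      · intro v hv
        have hv' := mem_filter.1 (mem_coe.1 hv)
        have hv1 := mem_product.1 hv'.1
        refine mem_coe.2 (mem_exc P (fun i => abs_le.2 (mem_Icc.1 ?_))
          (fun i => abs_le.2 (mem_Icc.1 ?_)) hv'.2.1 hv'.2.2.1 hv'.2.2.2)
        · exact Fintype.mem_piFinset.1 hv1.1 i
        · exact Fintype.mem_piFinset.1 hv1.2 i
      · intro v hv w hw heq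
        have hv' := (mem_filter.1 (mem_coe.1 hv)).2.1
        have hw' := (mem_filter.1 (mem_coe.1 hw)).2.1
        have e1 : ∀ i j, (M : ℤ) ∣ fam v.1 v.2 i j - fam γ δ i j := fun i =>
          fam_all v.1 v.2 i (fun a b => (M : ℤ) ∣ a - b) γ δ (hv' i).1 (hv' i).2
        have e2 : ∀ i j, (M : ℤ) ∣ fam w.1 w.2 i j - fam γ δ i j := fun i =>
          fam_all w.1 w.2 i (fun a b => (M : ℤ) ∣ a - b) γ δ (hw' i).1 (hw' i).2
        have heq' : bb M (fam γ δ) (fam v.1 v.2) = bb M (fam γ δ) (fam w.1 w.2) := heq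
        have key : ∀ i, v.1 i = w.1 i ∧ v.2 i = w.2 i := by
          intro i
          have b1 := bb_eq hM e1 i
          have b2 := bb_eq hM e2 i
          rw [heq'] at b1
          exact ⟨b1.1.trans b2.1.symm, b1.2.trans b2.2.symm⟩
        exact Prod.ext (funext fun i => (key i).1) (funext fun i => (key i).2)
    have hF' : ((Exc D (fun _ _ => 1)).card : ℝ) ≤ C₁ / W * D.vol := by
      unfold Exc
      convert hF
    have hMr : (0 : ℝ) < M := by exact_mod_cast hM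
    have hWr : (0 : ℝ) < W := by exact_mod_cast hW
    have hHr : (0 : ℝ) < ((2 * H + 1 : ℕ) : ℝ) := by positivity
    set X : ℝ := ((2 * H + 1 : ℕ) : ℝ) / M with hX
    have hX0 : 0 < X := by positivity
    have hN : (X + 1) ^ 6 ≤ 2 * X ^ 6 := by
      have e1 : X + 1 = X * (1 + (M : ℝ) / ((2 * H + 1 : ℕ) : ℝ)) := by
        rw [hX]
        field_simp
      rw [e1, mul_pow, mul_comm]
      gcongr
    have hvol' : D.vol ≤ (X + 1) ^ 6 := by
      refine hvol.trans (le_of_eq ?_)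
      rw [prod_const, card_univ, Fintype.card_fin, ← pow_mul]
    calc (S.card : ℝ) ≤ ((Exc D (fun _ _ => 1)).card : ℝ) := by exact_mod_cast hcard
      _ ≤ C₁ / W * D.vol := hF'
      _ ≤ C₁ / W * (2 * X ^ 6) := by
          gcongr
          exact hvol'.trans hN
      _ = 2 * C₁ / W * X ^ 6 := by ring
  rw [hS] at hgoal
  convert hgoal

end Pool.Agent.N134.LB
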